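import Pool.Agent.W_b58c63_h68.CharSum

/-!
# The value of a Dirichlet L-function at 1 as an Abel limit

For a nonprincipal character `θ` modulo `N` the sums `∑ θ(n) t^n / n` tend to `L(1, θ)` as `t → 1`, `t < 1`.
-/

noncomputable section

open Finset Filter Topology DirichletCharacter

namespace Pool.Agent.KSV

/-- Abel summation: a series with bounded partial sums against a weight of bounded variation. -/
theorem LOne_abel {a : ℕ → ℂ} {B : ℝ} (hS : ∀ n, ‖∑ k ∈ range n, a k‖ ≤ B) {u : ℕ → ℝ}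
    (hu : Tendsto u atTop (𝓝 0)) (ha : Summable fun n => a n * (u n : ℂ))
    (hv : Summable fun n => |u n - u (n + 1)|) :
    ∑' n, a n * (u n : ℂ) = ∑' n, (∑ k ∈ range (n + 1), a k) * ((u n - u (n + 1) : ℝ) : ℂ) := by
  have hB : 0 ≤ B := (norm_nonneg _).trans (hS 0)
  have key : ∀ M : ℕ, ∑ n ∈ range M, a n * (u n : ℂ) =
      (∑ k ∈ range M, a k) * (u M : ℂ) +
        ∑ n ∈ range M, (∑ k ∈ range (n + 1), a k) * ((u n - u (n + 1) : ℝ) : ℂ) := by
    intro M
    induction M with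
    | zero => simp
    | succ M ih =>
      rw [sum_range_succ, ih, sum_range_succ (fun n => (∑ k ∈ range (n + 1), a k) *
        ((u n - u (n + 1) : ℝ) : ℂ)), sum_range_succ a M]
      push_cast
      ring
  have hs : Summable fun n => (∑ k ∈ range (n + 1), a k) * ((u n - u (n + 1) : ℝ) : ℂ) := by
    refine Summable.of_norm_bounded (hv.mul_left B) fun n => ?_
    rw [norm_mul, Complex.norm_real, Real.norm_eq_abs]
    exact mul_le_mul_of_nonneg_right (hS _) (abs_nonneg _)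
  have h1 := ha.hasSum.tendsto_sum_nat
  have h2 := hs.hasSum.tendsto_sum_nat
  have h3 : Tendsto (fun M : ℕ => (∑ k ∈ range M, a k) * (u M : ℂ)) atTop (𝓝 0) := by
    refine squeeze_zero_norm (a := fun M => B * |u M|) (fun M => ?_) ?_
    · rw [norm_mul, Complex.norm_real, Real.norm_eq_abs]
      exact mul_le_mul_of_nonneg_right (hS _) (abs_nonneg _)
    · have := hu.abs.const_mul B
      simpa using this
  have h4 := h3.add h2
  rw [zero_add] at h4
  refine tendsto_nhds_unique h1 ?_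
  refine h4.congr fun M => ?_
  rw [key M]

/-- The limit value. -/
def limV (a : ℕ → ℂ) : ℂ :=
  ∑' n : ℕ, (∑ k ∈ range (n + 1), a k) * (((1 : ℝ) / n - 1 / (n + 1 : ℕ) : ℝ) : ℂ)

/-- The common dominated convergence step. -/
theorem LOne_dom {a : ℕ → ℂ} {B : ℝ} (h0 : a 0 = 0) (hS : ∀ n, ‖∑ k ∈ range n, a k‖ ≤ B)
    {ι : Type*} {l : Filter ι} {U : ι → ℕ → ℝ} (hU : ∀ n : ℕ, 1 ≤ n → Tendsto (fun i => U i n) l (𝓝 (1 / n)))
    (hb : ∀ᶠ i in l, ∀ n : ℕ, 1 ≤ n → |U i n - U i (n + 1)| ≤ 4 / ((n : ℝ) * (n + 1))) :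
    Tendsto (fun i => ∑' n, (∑ k ∈ range (n + 1), a k) * ((U i n - U i (n + 1) : ℝ) : ℂ)) l
      (𝓝 (limV a)) := by
  have hB : 0 ≤ B := (norm_nonneg _).trans (hS 0)
  unfold limV
  have hsum : Summable fun n : ℕ => B * (4 / ((n : ℝ) * (n + 1))) := by
    refine Summable.mul_left B ?_
    have h1 : Summable fun n : ℕ => 4 * (1 / ((n : ℝ) ^ 2)) :=
      (Real.summable_one_div_nat_pow.2 (by norm_num)).mul_left 4
    refine Summable.of_nonneg_of_le (fun n => by positivity) (fun n => ?_) h1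
    rcases Nat.eq_zero_or_pos n with rfl | hn
    · simp
    · have hn' : (0 : ℝ) < n := by exact_mod_cast hn
      rw [mul_one_div]
      refine div_le_div_of_nonneg_left (by norm_num) (by positivity) ?_
      nlinarith
  refine tendsto_tsum_of_dominated_convergence hsum (fun n => ?_) ?_
  · rcases Nat.eq_zero_or_pos n with rfl | hn
    · simp only [zero_add, sum_range_one, h0, zero_mul]
      exact tendsto_const_nhds
    · refine Tendsto.const_mul _ ?_
      have h1 := (hU n hn).sub (hU (n + 1) (by omega))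
      exact (Complex.continuous_ofReal.tendsto _).comp h1
  · filter_upwards [hb] with i hi n
    rcases Nat.eq_zero_or_pos n with rfl | hn
    · simp only [zero_add, sum_range_one, h0, zero_mul, norm_zero]
      positivity
    · rw [norm_mul, Complex.norm_real, Real.norm_eq_abs]
      exact mul_le_mul (hS _) (hi n hn) (abs_nonneg _) hB

theorem LOne_pow_bound {t : ℝ} (h0 : 0 ≤ t) (h1 : t ≤ 1) {n : ℕ} (hn : 1 ≤ n) :
    |t ^ n / n - t ^ (n + 1) / (n + 1 : ℕ)| ≤ 4 / ((n : ℝ) * (n + 1)) := by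
  have hn' : (0 : ℝ) < n := by exact_mod_cast hn
  have e1 : t ^ n / n - t ^ (n + 1) / (n + 1 : ℕ) =
      (t ^ n * (1 - t)) / n + t ^ (n + 1) * (1 / ((n : ℝ) * (n + 1))) := by
    push_cast
    field_simp
    ring
  have h2 : t ^ n * (1 - t) * (n + 1) ≤ 1 := by
    -- `(n+1) t^n (1-t) ≤ 1 - t^(n+1)`
    have h3 : ∀ m : ℕ, t ^ m * (1 - t) * (m + 1) ≤ 1 - t ^ (m + 1) := by
      intro m
      induction m with
      | zero => simp
      | succ m ih =>
        have h4 : t ^ (m + 1) * (1 - t) * ((m + 1 : ℕ) + 1) =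
            t * (t ^ m * (1 - t) * (m + 1)) + t ^ (m + 1) * (1 - t) := by
          push_cast
          ring
        have h5 : t * (t ^ m * (1 - t) * (m + 1)) ≤ t * (1 - t ^ (m + 1)) :=
          mul_le_mul_of_nonneg_left ih h0
        have h6 : 0 ≤ t ^ (m + 1) := pow_nonneg h0 _
        rw [h4]
        have h7 : t ^ (m + 1 + 1) = t * t ^ (m + 1) := by ring
        have h8 : t ^ (m + 1) ≤ 1 := pow_le_one₀ h0 h1
        rw [h7]
        nlinarith
    have := h3 n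
    have h6 : 0 ≤ t ^ (n + 1) := pow_nonneg h0 _
    linarith
  have h3 : 0 ≤ t ^ n * (1 - t) := mul_nonneg (pow_nonneg h0 _) (by linarith)
  have h4 : t ^ n * (1 - t) / n ≤ 1 / ((n : ℝ) * (n + 1)) := by
    rw [div_le_div_iff₀ hn' (by positivity)]
    nlinarith
  have h5 : t ^ (n + 1) * (1 / ((n : ℝ) * (n + 1))) ≤ 1 / ((n : ℝ) * (n + 1)) := by
    have h8 : t ^ (n + 1) ≤ 1 := pow_le_one₀ h0 h1
    have h9 : (0 : ℝ) ≤ 1 / ((n : ℝ) * (n + 1)) := by positivity
    nlinarith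
  have h6 : 0 ≤ t ^ (n + 1) * (1 / ((n : ℝ) * (n + 1))) := by positivity
  have h7 : 0 ≤ t ^ n * (1 - t) / n := by positivity
  rw [e1, abs_of_nonneg (by positivity)]
  have h8 : (4 : ℝ) / ((n : ℝ) * (n + 1)) = 4 * (1 / ((n : ℝ) * (n + 1))) := by ring
  rw [h8]
  have h9 : (0 : ℝ) ≤ 1 / ((n : ℝ) * (n + 1)) := by positivity
  linarith

theorem LOne_rpow_bound {s : ℝ} (h1 : 1 ≤ s) (h2 : s ≤ 2) {n : ℕ} (hn : 1 ≤ n) :
    |(n : ℝ) ^ (-s) - ((n + 1 : ℕ) : ℝ) ^ (-s)| ≤ 4 / ((n : ℝ) * (n + 1)) := by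
  have hn' : (1 : ℝ) ≤ n := by exact_mod_cast hn
  have hn0 : (0 : ℝ) < n := by linarith
  have h3 : ((n + 1 : ℕ) : ℝ) ^ (-s) ≤ (n : ℝ) ^ (-s) :=
    Real.rpow_le_rpow_of_nonpos hn0 (by push_cast; linarith) (by linarith)
  rw [abs_of_nonneg (by linarith)]
  have hc : ((n + 1 : ℕ) : ℝ) = (n : ℝ) + 1 := by push_cast; rfl
  have h4 : ((n + 1 : ℕ) : ℝ) ^ (-s) = (n : ℝ) ^ (-s) * (1 + -(1 / ((n : ℝ) + 1))) ^ s := by
    have h5 : 1 + -(1 / ((n : ℝ) + 1)) = n / (n + 1) := by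
      field_simp
      ring
    rw [h5, hc, Real.div_rpow hn0.le (by positivity), Real.rpow_neg hn0.le,
      Real.rpow_neg (by positivity)]
    have h6 : 0 < (n : ℝ) ^ s := Real.rpow_pos_of_pos hn0 _
    field_simp
  have h5 : 1 + s * -(1 / ((n : ℝ) + 1)) ≤ (1 + -(1 / ((n : ℝ) + 1))) ^ s := by
    refine one_add_mul_self_le_rpow_one_add ?_ h1
    have : 1 / ((n : ℝ) + 1) ≤ 1 := by
      rw [div_le_one (by positivity)]
      linarith
    linarith
  have h6 : (n : ℝ) ^ (-s) ≤ 1 / n := by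
    rw [Real.rpow_neg hn0.le, one_div]
    refine inv_anti₀ hn0 ?_
    calc (n : ℝ) = (n : ℝ) ^ (1 : ℝ) := (Real.rpow_one _).symm
      _ ≤ (n : ℝ) ^ s := Real.rpow_le_rpow_of_exponent_le hn' h1
  have h7 : 0 ≤ (n : ℝ) ^ (-s) := Real.rpow_nonneg hn0.le _
  have h8 : (n : ℝ) ^ (-s) - ((n + 1 : ℕ) : ℝ) ^ (-s) ≤ (n : ℝ) ^ (-s) * (s * (1 / ((n : ℝ) + 1))) := by
    rw [h4]
    nlinarith
  refine h8.trans ?_
  calc (n : ℝ) ^ (-s) * (s * (1 / ((n : ℝ) + 1))) ≤ (1 / n) * (4 * (1 / ((n : ℝ) + 1))) := by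
        refine mul_le_mul h6 (mul_le_mul_of_nonneg_right (by linarith) (by positivity)) (by positivity)
          (by positivity)
    _ = 4 / ((n : ℝ) * (n + 1)) := by field_simp

variable {N : ℕ} [NeZero N]

omit [NeZero N] in
theorem LOne_zero {θ : DirichletCharacter ℂ N} (hθ : θ ≠ 1) : θ ((0 : ℕ) : ZMod N) = 0 := by
  have hN : N ≠ 1 := fun h => hθ (DirichletCharacter.level_one' θ h)
  rw [Nat.cast_zero]
  exact DirichletCharacter.map_zero' θ hN

/-- The power series side. -/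
theorem LOne_pow {θ : DirichletCharacter ℂ N} (hθ : θ ≠ 1) :
    Tendsto (fun t : ℝ => ∑' n : ℕ, θ (n : ZMod N) * ((t ^ n / n : ℝ) : ℂ)) (𝓝[<] 1)
      (𝓝 (limV fun n : ℕ => θ (n : ZMod N))) := by
  have h1 := LOne_dom (a := fun n : ℕ => θ (n : ZMod N)) (B := N) (LOne_zero hθ)
    (fun n => Wb58c63.char_sum_le θ hθ n) (l := 𝓝[<] (1 : ℝ)) (U := fun t n => t ^ n / n)
    (fun n hn => by
      have h2 : Tendsto (fun t : ℝ => t ^ n / n) (𝓝 1) (𝓝 (1 ^ n / n)) :=
        ((continuous_pow n).div_const _).tendsto 1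
      rw [one_pow] at h2
      exact h2.mono_left nhdsWithin_le_nhds)
    (by
      have h3 : ∀ᶠ t : ℝ in 𝓝[<] 1, t ∈ Set.Ioo (0 : ℝ) 1 := Ioo_mem_nhdsLT one_pos
      filter_upwards [h3] with t ht n hn
      exact LOne_pow_bound ht.1.le ht.2.le hn)
  refine h1.congr' ?_
  have h3 : ∀ᶠ t : ℝ in 𝓝[<] 1, t ∈ Set.Ioo (0 : ℝ) 1 := Ioo_mem_nhdsLT one_pos
  filter_upwards [h3] with t ht
  have hst : Summable fun n : ℕ => t ^ n := summable_geometric_of_lt_one ht.1.le ht.2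
  have hle : ∀ n : ℕ, t ^ n / n ≤ t ^ n := by
    intro n
    rcases Nat.eq_zero_or_pos n with rfl | hn
    · simp
    · exact div_le_self (pow_nonneg ht.1.le _) (by exact_mod_cast hn)
  have h0' : ∀ n : ℕ, 0 ≤ t ^ n / n := fun n => div_nonneg (pow_nonneg ht.1.le _) (Nat.cast_nonneg _)
  have hsu : Summable fun n : ℕ => t ^ n / n := Summable.of_nonneg_of_le h0' hle hst
  symm
  refine LOne_abel (B := N) (fun n => Wb58c63.char_sum_le θ hθ n) (u := fun n => t ^ n / n)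
    hsu.tendsto_atTop_zero ?_ ?_
  · refine Summable.of_norm_bounded hsu fun n => ?_
    rw [norm_mul, Complex.norm_real, Real.norm_of_nonneg (h0' n)]
    exact mul_le_of_le_one_left (h0' n) (θ.norm_le_one _)
  · have hsu' : Summable fun n : ℕ => t ^ (n + 1) / (n + 1 : ℕ) := (summable_nat_add_iff 1).2 hsu
    refine Summable.of_nonneg_of_le (fun n => abs_nonneg _) (fun n => ?_) (hsu.add hsu')
    refine (abs_sub _ _).trans (le_of_eq ?_)
    rw [abs_of_nonneg (h0' n), abs_of_nonneg (h0' (n + 1))]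

/-- The Dirichlet series side. -/
theorem LOne_ser {θ : DirichletCharacter ℂ N} (hθ : θ ≠ 1) :
    Tendsto (fun s : ℝ => LFunction θ (s : ℂ)) (𝓝[>] 1) (𝓝 (limV fun n : ℕ => θ (n : ZMod N))) := by
  have h1 := LOne_dom (a := fun n : ℕ => θ (n : ZMod N)) (B := N) (LOne_zero hθ)
    (fun n => Wb58c63.char_sum_le θ hθ n) (l := 𝓝[>] (1 : ℝ)) (U := fun s n => (n : ℝ) ^ (-s))
    (fun n hn => by
      have hn0 : (n : ℝ) ≠ 0 := by
        have : (1 : ℝ) ≤ n := by exact_mod_cast hn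
        linarith
      have h2 : Tendsto (fun s : ℝ => (n : ℝ) ^ (-s)) (𝓝 1) (𝓝 ((n : ℝ) ^ (-1 : ℝ))) :=
        ((Real.continuous_const_rpow hn0).comp continuous_neg).tendsto 1
      rw [Real.rpow_neg_one, ← one_div] at h2
      exact h2.mono_left nhdsWithin_le_nhds)
    (by
      have h3 : ∀ᶠ s : ℝ in 𝓝[>] 1, s ∈ Set.Ioo (1 : ℝ) 2 := Ioo_mem_nhdsGT (by norm_num)
      filter_upwards [h3] with s hs n hn
      exact LOne_rpow_bound hs.1.le hs.2.le hn)
  refine h1.congr' ?_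
  have h3 : ∀ᶠ s : ℝ in 𝓝[>] 1, s ∈ Set.Ioo (1 : ℝ) 2 := Ioo_mem_nhdsGT (by norm_num)
  filter_upwards [h3] with s hs
  have hs1 := hs.1
  have h0' : ∀ n : ℕ, 0 ≤ (n : ℝ) ^ (-s) := fun n => Real.rpow_nonneg (Nat.cast_nonneg _) _
  have hsu : Summable fun n : ℕ => (n : ℝ) ^ (-s) := by
    have := Real.summable_one_div_nat_rpow.2 hs1
    refine this.congr fun n => ?_
    rw [Real.rpow_neg (Nat.cast_nonneg _), one_div]
  rw [LFunction_eq_LSeries θ (by rw [Complex.ofReal_re]; exact hs1), LSeries]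
  have e1 : ∀ n : ℕ, LSeries.term (fun n : ℕ => θ (n : ZMod N)) (s : ℂ) n =
      θ (n : ZMod N) * (((n : ℝ) ^ (-s) : ℝ) : ℂ) := by
    intro n
    rcases Nat.eq_zero_or_pos n with rfl | hn
    · rw [LSeries.term_zero, LOne_zero hθ, zero_mul]
    · rw [LSeries.term_of_ne_zero (by omega), Real.rpow_neg (Nat.cast_nonneg _), Complex.ofReal_inv,
        Complex.ofReal_cpow (Nat.cast_nonneg _), Complex.ofReal_natCast, div_eq_mul_inv]
  rw [tsum_congr e1]
  symm
  refine LOne_abel (B := N) (fun n => Wb58c63.char_sum_le θ hθ n) (u := fun n => (n : ℝ) ^ (-s))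
    hsu.tendsto_atTop_zero ?_ ?_
  · refine Summable.of_norm_bounded hsu fun n => ?_
    rw [norm_mul, Complex.norm_real, Real.norm_of_nonneg (h0' n)]
    exact mul_le_of_le_one_left (h0' n) (θ.norm_le_one _)
  · have hsu' : Summable fun n : ℕ => ((n + 1 : ℕ) : ℝ) ^ (-s) := (summable_nat_add_iff 1).2 hsu
    refine Summable.of_nonneg_of_le (fun n => abs_nonneg _) (fun n => ?_) (hsu.add hsu')
    refine (abs_sub _ _).trans (le_of_eq ?_)
    rw [abs_of_nonneg (h0' n), abs_of_nonneg (h0' (n + 1))]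

/-- `∑ θ(n) t^n / n → L(1, θ)` as `t → 1`, `t < 1`. -/
theorem LOne_tendsto {θ : DirichletCharacter ℂ N} (hθ : θ ≠ 1) :
    Tendsto (fun t : ℝ => ∑' n : ℕ, θ (n : ZMod N) * ((t ^ n / n : ℝ) : ℂ)) (𝓝[<] 1)
      (𝓝 (LFunction θ 1)) := by
  have h1 := LOne_ser hθ
  have h2 : Tendsto (fun s : ℝ => LFunction θ (s : ℂ)) (𝓝[>] 1) (𝓝 (LFunction θ 1)) := by
    have h3 : Continuous fun s : ℝ => LFunction θ (s : ℂ) :=
      (differentiable_LFunction hθ).continuous.comp Complex.continuous_ofReal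
    have h4 := (h3.tendsto 1).mono_left (nhdsWithin_le_nhds (s := Set.Ioi 1))
    rwa [Complex.ofReal_one] at h4
  have h3 := tendsto_nhds_unique h1 h2
  rw [← h3]
  exact LOne_pow hθ

end Pool.Agent.KSV
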