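import Pool.Agent.W_420c7v_h4.LOne

/-!
# Character sums of `log |1 + z e(x/r)|`
-/

noncomputable section

open Finset Filter Topology DirichletCharacter

namespace Pool.Agent.KSV

variable {N : ℕ} [NeZero N]

omit [NeZero N] in
theorem NV_summable (θ : DirichletCharacter ℂ N) {t : ℝ} (h0 : 0 ≤ t) (h1 : t < 1) :
    Summable fun n : ℕ => θ (n : ZMod N) * ((t ^ n / n : ℝ) : ℂ) := by
  have hst : Summable fun n : ℕ => t ^ n := summable_geometric_of_lt_one h0 h1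
  refine Summable.of_norm_bounded hst fun n => ?_
  have h0' : 0 ≤ t ^ n / n := div_nonneg (pow_nonneg h0 _) (Nat.cast_nonneg _)
  rw [norm_mul, Complex.norm_real, Real.norm_of_nonneg h0']
  have hle : t ^ n / n ≤ t ^ n := by
    rcases Nat.eq_zero_or_pos n with rfl | hn
    · simp
    · exact div_le_self (pow_nonneg h0 _) (by exact_mod_cast hn)
  exact (mul_le_of_le_one_left h0' (θ.norm_le_one _)).trans hle

/-- The power series `∑ θ(n) t^n / n`. -/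
def gser (θ : DirichletCharacter ℂ N) (t : ℝ) : ℂ :=
  ∑' n : ℕ, θ (n : ZMod N) * ((t ^ n / n : ℝ) : ℂ)

omit [NeZero N] in
theorem NV_alt_eq (θ : DirichletCharacter ℂ N) {t : ℝ} (h0 : 0 ≤ t) (h1 : t < 1) :
    ∑' n : ℕ, (-1 : ℂ) ^ (n + 1) * (θ (n : ZMod N) * ((t ^ n / n : ℝ) : ℂ)) =
      gser θ t - θ 2 * gser θ (t ^ 2) := by
  have hS := NV_summable θ h0 h1
  have hSe : Summable fun k : ℕ => θ ((2 * k : ℕ) : ZMod N) * ((t ^ (2 * k) / (2 * k : ℕ) : ℝ) : ℂ) :=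
    hS.comp_injective (i := fun k : ℕ => 2 * k) (mul_right_injective₀ two_ne_zero)
  have hSo : Summable fun k : ℕ =>
      θ ((2 * k + 1 : ℕ) : ZMod N) * ((t ^ (2 * k + 1) / (2 * k + 1 : ℕ) : ℝ) : ℂ) :=
    hS.comp_injective (i := fun k : ℕ => 2 * k + 1)
      ((add_left_injective 1).comp (mul_right_injective₀ two_ne_zero))
  have e1 : ∑' k : ℕ, θ ((2 * k : ℕ) : ZMod N) * ((t ^ (2 * k) / (2 * k : ℕ) : ℝ) : ℂ) +
      ∑' k : ℕ, θ ((2 * k + 1 : ℕ) : ZMod N) * ((t ^ (2 * k + 1) / (2 * k + 1 : ℕ) : ℝ) : ℂ) =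
      gser θ t :=
    tsum_even_add_odd (f := fun n : ℕ => θ (n : ZMod N) * ((t ^ n / n : ℝ) : ℂ)) hSe hSo
  have e3 : ∀ k : ℕ, (-1 : ℂ) ^ (2 * k + 1) *
      (θ ((2 * k : ℕ) : ZMod N) * ((t ^ (2 * k) / (2 * k : ℕ) : ℝ) : ℂ)) =
      -(θ ((2 * k : ℕ) : ZMod N) * ((t ^ (2 * k) / (2 * k : ℕ) : ℝ) : ℂ)) := by
    intro k
    rw [pow_succ, pow_mul, neg_one_sq, one_pow, one_mul, neg_one_mul]
  have e4 : ∀ k : ℕ, (-1 : ℂ) ^ (2 * k + 1 + 1) *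
      (θ ((2 * k + 1 : ℕ) : ZMod N) * ((t ^ (2 * k + 1) / (2 * k + 1 : ℕ) : ℝ) : ℂ)) =
      θ ((2 * k + 1 : ℕ) : ZMod N) * ((t ^ (2 * k + 1) / (2 * k + 1 : ℕ) : ℝ) : ℂ) := by
    intro k
    rw [pow_succ, pow_succ, pow_mul, neg_one_sq, one_pow, one_mul, neg_one_mul, neg_neg, one_mul]
  have hSe' : Summable fun k : ℕ => (-1 : ℂ) ^ (2 * k + 1) *
      (θ ((2 * k : ℕ) : ZMod N) * ((t ^ (2 * k) / (2 * k : ℕ) : ℝ) : ℂ)) :=
    hSe.neg.congr fun k => (e3 k).symm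
  have hSo' : Summable fun k : ℕ => (-1 : ℂ) ^ (2 * k + 1 + 1) *
      (θ ((2 * k + 1 : ℕ) : ZMod N) * ((t ^ (2 * k + 1) / (2 * k + 1 : ℕ) : ℝ) : ℂ)) :=
    hSo.congr fun k => (e4 k).symm
  have e2 := tsum_even_add_odd (f := fun n : ℕ => (-1 : ℂ) ^ (n + 1) *
    (θ (n : ZMod N) * ((t ^ n / n : ℝ) : ℂ))) hSe' hSo'
  have e5 : θ 2 * gser θ (t ^ 2) =
      2 * ∑' k : ℕ, θ ((2 * k : ℕ) : ZMod N) * ((t ^ (2 * k) / (2 * k : ℕ) : ℝ) : ℂ) := by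
    unfold gser
    rw [← tsum_mul_left, ← tsum_mul_left]
    refine tsum_congr fun k => ?_
    rcases Nat.eq_zero_or_pos k with rfl | hk
    · simp
    · have hk' : (k : ℂ) ≠ 0 := by exact_mod_cast hk.ne'
      have h2 : θ ((2 * k : ℕ) : ZMod N) = θ 2 * θ (k : ZMod N) := by
        rw [← map_mul]
        push_cast
        rfl
      rw [h2, ← pow_mul]
      push_cast
      field_simp
  rw [← e2, tsum_congr e3, tsum_congr e4, tsum_neg, e5, ← e1]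
  ring

/-- `∑ (-1)^(n+1) θ(n) t^n / n → (1 - θ(2)) L(1, θ)`. -/
theorem NV_alt {θ : DirichletCharacter ℂ N} (hθ : θ ≠ 1) :
    Tendsto (fun t : ℝ => ∑' n : ℕ, (-1 : ℂ) ^ (n + 1) * (θ (n : ZMod N) * ((t ^ n / n : ℝ) : ℂ)))
      (𝓝[<] 1) (𝓝 ((1 - θ 2) * LFunction θ 1)) := by
  have hA : Tendsto (gser θ) (𝓝[<] 1) (𝓝 (LFunction θ 1)) := LOne_tendsto hθ
  have hsq : Tendsto (fun t : ℝ => t ^ 2) (𝓝[<] 1) (𝓝[<] 1) := by
    rw [tendsto_nhdsWithin_iff]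
    constructor
    · have h : Tendsto (fun t : ℝ => t ^ 2) (𝓝 1) (𝓝 (1 ^ 2)) := (continuous_pow 2).tendsto 1
      rw [one_pow] at h
      exact h.mono_left nhdsWithin_le_nhds
    · have h3 : ∀ᶠ t : ℝ in 𝓝[<] 1, t ∈ Set.Ioo (0 : ℝ) 1 := Ioo_mem_nhdsLT one_pos
      filter_upwards [h3] with t ht
      exact pow_lt_one₀ ht.1.le ht.2 (by norm_num)
  have hC := hA.sub ((hA.comp hsq).const_mul (θ 2))
  have e0 : (1 - θ 2) * LFunction θ 1 = LFunction θ 1 - θ 2 * LFunction θ 1 := by ring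
  rw [e0]
  refine hC.congr' ?_
  have h3 : ∀ᶠ t : ℝ in 𝓝[<] 1, t ∈ Set.Ioo (0 : ℝ) 1 := Ioo_mem_nhdsLT one_pos
  filter_upwards [h3] with t ht
  exact (NV_alt_eq θ ht.1.le ht.2).symm

/-- `∑_x χ̄(x) Re (c e(n x)) = χ(n) τ(χ̄) (c + χ(-1) c̄) / 2`. -/
theorem NV_inner {χ : DirichletCharacter ℂ N} (hχ : (χ⁻¹).IsPrimitive) (c : ℂ) (n : ℕ) :
    ∑ x : ZMod N, χ⁻¹ x * (((c * ZMod.stdAddChar ((n : ZMod N) * x)).re : ℝ) : ℂ) =
      χ (n : ZMod N) * gaussSum χ⁻¹ (ZMod.stdAddChar (N := N)) *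
        ((c + χ (-1) * (starRingEnd ℂ) c) / 2) := by
  have h1 : ∀ a : ZMod N, ∑ x : ZMod N, χ⁻¹ x * ZMod.stdAddChar (a * x) =
      χ a * gaussSum χ⁻¹ (ZMod.stdAddChar (N := N)) := by
    intro a
    have h2 := gaussSum_mulShift_of_isPrimitive (ZMod.stdAddChar (N := N)) hχ a
    rw [inv_inv] at h2
    rw [← h2, gaussSum]
    rfl
  have h3 : ∀ x : ZMod N, (((c * ZMod.stdAddChar ((n : ZMod N) * x)).re : ℝ) : ℂ) =
      (c * ZMod.stdAddChar ((n : ZMod N) * x) +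
        (starRingEnd ℂ) c * ZMod.stdAddChar ((-(n : ZMod N)) * x)) / 2 := by
    intro x
    rw [Complex.re_eq_add_conj, map_mul (starRingEnd ℂ), neg_mul, AddChar.map_neg_eq_conj]
  have h4 : ∑ x : ZMod N, χ⁻¹ x * (((c * ZMod.stdAddChar ((n : ZMod N) * x)).re : ℝ) : ℂ) =
      (c * ∑ x : ZMod N, χ⁻¹ x * ZMod.stdAddChar ((n : ZMod N) * x) +
        (starRingEnd ℂ) c * ∑ x : ZMod N, χ⁻¹ x * ZMod.stdAddChar ((-(n : ZMod N)) * x)) / 2 := by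
    rw [Finset.mul_sum, Finset.mul_sum, ← Finset.sum_add_distrib, Finset.sum_div]
    refine Finset.sum_congr rfl fun x _ => ?_
    rw [h3 x]
    ring
  rw [h4, h1, h1, ← neg_one_mul (n : ZMod N), map_mul]
  ring

/-- The character sum of `log |1 + t z e(x)|` as a power series. -/
theorem NV_series {χ : DirichletCharacter ℂ N} (hχ : (χ⁻¹).IsPrimitive) {z : ℂ} (hz : ‖z‖ = 1)
    {t : ℝ} (h0 : 0 ≤ t) (h1 : t < 1) :
    ∑ x : ZMod N, χ⁻¹ x * ((Real.log ‖1 + (t : ℂ) * (z * ZMod.stdAddChar x)‖ : ℝ) : ℂ) =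
      ∑' n : ℕ, (-1 : ℂ) ^ (n + 1) * (χ (n : ZMod N) * ((t ^ n / n : ℝ) : ℂ)) *
        (gaussSum χ⁻¹ (ZMod.stdAddChar (N := N)) *
          ((z ^ n + χ (-1) * (starRingEnd ℂ) (z ^ n)) / 2)) := by
  have hn1 : ∀ x : ZMod N, ‖(t : ℂ) * (z * ZMod.stdAddChar x)‖ < 1 := by
    intro x
    rw [norm_mul, norm_mul, hz, Complex.norm_real, Real.norm_of_nonneg h0, one_mul,
      AddChar.norm_apply, mul_one]
    exact h1
  have key : ∀ x : ZMod N, HasSum (fun n : ℕ => χ⁻¹ x *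
      ((((-1 : ℂ) ^ (n + 1) * ((t : ℂ) * (z * ZMod.stdAddChar x)) ^ n / n).re : ℝ) : ℂ))
      (χ⁻¹ x * ((Real.log ‖1 + (t : ℂ) * (z * ZMod.stdAddChar x)‖ : ℝ) : ℂ)) := by
    intro x
    refine HasSum.mul_left _ ?_
    have h2 := Complex.hasSum_taylorSeries_log (hn1 x)
    have h3 := Complex.hasSum_re h2
    rw [Complex.log_re] at h3
    exact Complex.hasSum_ofReal.2 h3
  have h4 := hasSum_sum fun x (_ : x ∈ (Finset.univ : Finset (ZMod N))) => key x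
  rw [← h4.tsum_eq]
  refine tsum_congr fun n => ?_
  rcases Nat.eq_zero_or_pos n with rfl | hn
  · simp
  have hn' : (n : ℝ) ≠ 0 := by exact_mod_cast hn.ne'
  have h5 : ∀ x : ZMod N, ((((-1 : ℂ) ^ (n + 1) * ((t : ℂ) * (z * ZMod.stdAddChar x)) ^ n / n).re : ℝ) : ℂ)
      = (-1 : ℂ) ^ (n + 1) * ((t ^ n / n : ℝ) : ℂ) *
        (((z ^ n * ZMod.stdAddChar ((n : ZMod N) * x)).re : ℝ) : ℂ) := by
    intro x
    have h6 : (-1 : ℂ) ^ (n + 1) * ((t : ℂ) * (z * ZMod.stdAddChar x)) ^ n / n =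
        (((-1 : ℝ) ^ (n + 1) * (t ^ n / n) : ℝ) : ℂ) * (z ^ n * ZMod.stdAddChar ((n : ZMod N) * x)) := by
      have h7 : ZMod.stdAddChar ((n : ZMod N) * x) = (ZMod.stdAddChar x : ℂ) ^ n := by
        rw [← nsmul_eq_mul, AddChar.map_nsmul_eq_pow]
      rw [h7]
      push_cast
      ring
    rw [h6, Complex.re_ofReal_mul]
    push_cast
    ring
  simp_rw [h5]
  have h8 : ∑ x : ZMod N, χ⁻¹ x * ((-1 : ℂ) ^ (n + 1) * ((t ^ n / n : ℝ) : ℂ) *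
      (((z ^ n * ZMod.stdAddChar ((n : ZMod N) * x)).re : ℝ) : ℂ)) =
      (-1 : ℂ) ^ (n + 1) * ((t ^ n / n : ℝ) : ℂ) * ∑ x : ZMod N, χ⁻¹ x *
      (((z ^ n * ZMod.stdAddChar ((n : ZMod N) * x)).re : ℝ) : ℂ) := by
    rw [Finset.mul_sum]
    refine Finset.sum_congr rfl fun x _ => ?_
    ring
  rw [h8, NV_inner hχ]
  ring

/-- The limit `t → 1` of the left side. -/
theorem NV_lim (χ : DirichletCharacter ℂ N) {z : ℂ}
    (hne : ∀ x : ZMod N, χ⁻¹ x ≠ 0 → 1 + z * ZMod.stdAddChar x ≠ 0) :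
    Tendsto (fun t : ℝ => ∑ x : ZMod N,
      χ⁻¹ x * ((Real.log ‖1 + (t : ℂ) * (z * ZMod.stdAddChar x)‖ : ℝ) : ℂ)) (𝓝[<] 1)
      (𝓝 (∑ x : ZMod N, χ⁻¹ x * ((Real.log ‖1 + z * ZMod.stdAddChar x‖ : ℝ) : ℂ))) := by
  refine tendsto_finsetSum _ fun x _ => ?_
  by_cases hx : χ⁻¹ x = 0
  · rw [hx]
    simp only [zero_mul]
    exact tendsto_const_nhds
  refine Tendsto.const_mul _ ?_
  have h1 : Tendsto (fun t : ℝ => 1 + (t : ℂ) * (z * ZMod.stdAddChar x)) (𝓝 1)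
      (𝓝 (1 + ((1 : ℝ) : ℂ) * (z * ZMod.stdAddChar x))) := by
    have hc : Continuous fun t : ℝ => 1 + (t : ℂ) * (z * ZMod.stdAddChar x) := by fun_prop
    exact hc.tendsto 1
  rw [Complex.ofReal_one, one_mul] at h1
  have h2 : Tendsto (fun t : ℝ => Real.log ‖1 + (t : ℂ) * (z * ZMod.stdAddChar x)‖) (𝓝 1)
      (𝓝 (Real.log ‖1 + z * ZMod.stdAddChar x‖)) :=
    (h1.norm).log (norm_ne_zero_iff.2 (hne x hx))
  exact ((Complex.continuous_ofReal.tendsto _).comp h2).mono_left nhdsWithin_le_nhds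

/-- General form: if the factor `(z^n + χ(-1) conj z^n)/2` times `χ` is `κ θ(n)`, `θ` a nonprincipal
character, the character sum is `κ τ (1 - θ(2)) L(1, θ)`. -/
theorem NV_main {χ : DirichletCharacter ℂ N} (hχ : (χ⁻¹).IsPrimitive) {z : ℂ} (hz : ‖z‖ = 1)
    (hne : ∀ x : ZMod N, χ⁻¹ x ≠ 0 → 1 + z * ZMod.stdAddChar x ≠ 0) {M : ℕ} [NeZero M]
    {θ : DirichletCharacter ℂ M} (hθ : θ ≠ 1) {κ : ℂ}
    (hκ : ∀ n : ℕ, χ (n : ZMod N) * ((z ^ n + χ (-1) * (starRingEnd ℂ) (z ^ n)) / 2) =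
      κ * θ (n : ZMod M)) :
    ∑ x : ZMod N, χ⁻¹ x * ((Real.log ‖1 + z * ZMod.stdAddChar x‖ : ℝ) : ℂ) =
      κ * gaussSum χ⁻¹ (ZMod.stdAddChar (N := N)) * ((1 - θ 2) * LFunction θ 1) := by
  have h1 := NV_lim χ hne
  have h2 := (NV_alt hθ).const_mul (κ * gaussSum χ⁻¹ (ZMod.stdAddChar (N := N)))
  refine tendsto_nhds_unique h1 (h2.congr' ?_)
  have h3 : ∀ᶠ t : ℝ in 𝓝[<] 1, t ∈ Set.Ioo (0 : ℝ) 1 := Ioo_mem_nhdsLT one_pos
  filter_upwards [h3] with t ht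
  rw [NV_series hχ hz ht.1.le ht.2, ← tsum_mul_left]
  refine tsum_congr fun n => ?_
  have h4 := hκ n
  linear_combination (-1 : ℂ) ^ (n + 1) * ((t ^ n / n : ℝ) : ℂ) *
    gaussSum χ⁻¹ (ZMod.stdAddChar (N := N)) * (-h4)

end Pool.Agent.KSV
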