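import Pool.Agent.W_420c7v_h4.NV

/-!
# Vanishing at characters and in `ZMod r`

`zt false = 1`, `zt true = e(1/3)`.  If `∑_w f_w log |1 + zt e(y h_w / r)| = 0` for all `y ≠ 0` then
`∑ f_w χ(h_w) = 0` for all nonprincipal characters of the right parity with `χ(2) ≠ ± 1`, and hence
`∑ f_w h_w^k = 0` in `ZMod r`.
-/

noncomputable section

open Finset Filter Topology DirichletCharacter

namespace Pool.Agent.KSV

variable {r : ℕ} [Fact r.Prime]

theorem Van_prim {χ : DirichletCharacter ℂ r} (hχ : χ ≠ 1) : χ.IsPrimitive := by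
  have hr : r.Prime := Fact.out
  rw [DirichletCharacter.isPrimitive_def]
  rcases (Nat.dvd_prime hr).1 χ.conductor_dvd_level with h | h
  · exact absurd (DirichletCharacter.eq_one_iff_conductor_eq_one.2 h) hχ
  · exact h

theorem Van_gauss {χ : DirichletCharacter ℂ r} (hχ : χ ≠ 1) :
    gaussSum χ (ZMod.stdAddChar (N := r)) ≠ 0 := by
  have hr : r.Prime := Fact.out
  refine gaussSum_ne_zero_of_nontrivial ?_ hχ (ZMod.isPrimitive_stdAddChar r)
  rw [ZMod.card]
  exact_mod_cast hr.ne_zero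

theorem Van_pow (hr2 : r ≠ 2) (x : ZMod r) : (ZMod.stdAddChar x : ℂ) ≠ -1 := by
  intro h
  have hr : r.Prime := Fact.out
  have h1 : (ZMod.stdAddChar x : ℂ) ^ r = 1 := by
    rw [← AddChar.map_nsmul_eq_pow, nsmul_eq_mul, CharP.cast_eq_zero, zero_mul, AddChar.map_zero_eq_one]
  rw [h, (hr.odd_of_ne_two hr2).neg_one_pow] at h1
  norm_num at h1

/-- `e(1/3)` -/
def om : ℂ := Complex.exp (2 * Real.pi * Complex.I / 3)

theorem om_pow : om ^ 3 = 1 := by
  rw [om, ← Complex.exp_nat_mul]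
  have : ((3 : ℕ) : ℂ) * (2 * Real.pi * Complex.I / 3) = 2 * Real.pi * Complex.I := by
    push_cast
    ring
  rw [this, Complex.exp_two_pi_mul_I]

theorem om_norm : ‖om‖ = 1 := by
  have : (2 * Real.pi * Complex.I / 3 : ℂ) = ((2 * Real.pi / 3 : ℝ) : ℂ) * Complex.I := by
    push_cast
    ring
  rw [om, this, Complex.norm_exp_ofReal_mul_I]

theorem om_eq : om = ⟨-1 / 2, Real.sqrt 3 / 2⟩ := by
  have h : (2 * Real.pi * Complex.I / 3 : ℂ) = ((2 * Real.pi / 3 : ℝ) : ℂ) * Complex.I := by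
    push_cast
    ring
  have h1 : Real.cos (2 * Real.pi / 3) = -1 / 2 := by
    have : 2 * Real.pi / 3 = Real.pi - Real.pi / 3 := by ring
    rw [this, Real.cos_pi_sub, Real.cos_pi_div_three]
    ring
  have h2 : Real.sin (2 * Real.pi / 3) = Real.sqrt 3 / 2 := by
    have : 2 * Real.pi / 3 = Real.pi - Real.pi / 3 := by ring
    rw [this, Real.sin_pi_sub, Real.sin_pi_div_three]
  apply Complex.ext
  · rw [om, h, Complex.exp_ofReal_mul_I_re, h1]
  · rw [om, h, Complex.exp_ofReal_mul_I_im, h2]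

/-- The odd character modulo 3. -/
def chi3 : DirichletCharacter ℂ 3 :=
  (quadraticChar (ZMod 3)).ringHomComp (Int.castRingHom ℂ)

theorem chi3_zero : chi3 0 = 0 := by
  unfold chi3
  rw [MulChar.ringHomComp_apply]
  simp

theorem chi3_one : chi3 1 = 1 := map_one _

theorem chi3_two : chi3 2 = -1 := by
  have h : quadraticChar (ZMod 3) 2 = -1 := by decide
  unfold chi3
  rw [MulChar.ringHomComp_apply, h]
  simp

theorem om_im (n : ℕ) : (om ^ n - (starRingEnd ℂ) (om ^ n)) / 2 =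
    (Complex.I * (Real.sqrt 3 / 2 : ℝ)) * chi3 (n : ZMod 3) := by
  have h0 : om ^ n = om ^ (n % 3) := by
    conv_lhs => rw [← Nat.div_add_mod n 3, pow_add, pow_mul, om_pow, one_pow, one_mul]
  have h0' : ((n : ℕ) : ZMod 3) = ((n % 3 : ℕ) : ZMod 3) := by
    rw [ZMod.natCast_mod]
  have h1 : ∀ z : ℂ, (z - (starRingEnd ℂ) z) / 2 = Complex.I * ((z.im : ℝ) : ℂ) := by
    intro z
    apply Complex.ext <;> simp
  rw [h0, h0', h1]
  have h2 : n % 3 < 3 := Nat.mod_lt _ (by norm_num)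
  interval_cases n % 3
  · rw [pow_zero, Nat.cast_zero, chi3_zero]
    simp
  · rw [pow_one, Nat.cast_one, chi3_one, om_eq]
    simp
  · have h3 : ((2 : ℕ) : ZMod 3) = 2 := rfl
    rw [h3, chi3_two, om_eq, sq]
    apply Complex.ext <;> simp <;> ring

/-- The character `χ_3 χ` modulo `3 r`. -/
def th3 (χ : DirichletCharacter ℂ r) : DirichletCharacter ℂ (3 * r) :=
  changeLevel (dvd_mul_right 3 r) chi3 * changeLevel (dvd_mul_left r 3) χ

theorem th3_apply (χ : DirichletCharacter ℂ r) (n : ℕ) :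
    th3 χ (n : ZMod (3 * r)) = chi3 (n : ZMod 3) * χ (n : ZMod r) := by
  have hr : r.Prime := Fact.out
  by_cases hn : n.Coprime (3 * r)
  · have h1 : IsCoprime (n : ℤ) ((3 * r : ℕ) : ℤ) := Nat.isCoprime_iff_coprime.2 hn
    have e1 := changeLevel_eq_cast_of_dvd' chi3 (dvd_mul_right 3 r) h1
    have e2 := changeLevel_eq_cast_of_dvd' χ (dvd_mul_left r 3) h1
    rw [th3, MulChar.mul_apply]
    rw [Int.cast_natCast] at e1 e2
    rw [e1, e2]
    simp
  · have h1 : th3 χ (n : ZMod (3 * r)) = 0 :=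
      MulChar.map_nonunit _ fun h => hn ((ZMod.isUnit_iff_coprime n (3 * r)).1 h)
    rw [h1]
    rw [Nat.coprime_mul_iff_right, not_and_or] at hn
    symm
    rcases hn with h | h
    · rw [MulChar.map_nonunit _ fun h' => h ((ZMod.isUnit_iff_coprime n 3).1 h'), zero_mul]
    · rw [MulChar.map_nonunit χ fun h' => h ((ZMod.isUnit_iff_coprime n r).1 h'), mul_zero]

theorem th3_ne (χ : DirichletCharacter ℂ r) (hr3 : r ≠ 3) : th3 χ ≠ 1 := by
  have hr : r.Prime := Fact.out
  have hc : Nat.Coprime 3 r := (Nat.coprime_primes Nat.prime_three hr).2 hr3.symm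
  intro h
  obtain ⟨n, hn3, hnr⟩ := Nat.chineseRemainder hc 2 1
  have h1 : (n : ZMod 3) = 2 := by
    have := (ZMod.natCast_eq_natCast_iff n 2 3).2 hn3
    exact_mod_cast this
  have h2 : (n : ZMod r) = 1 := by
    have := (ZMod.natCast_eq_natCast_iff n 1 r).2 hnr
    exact_mod_cast this
  have h3 := th3_apply χ n
  rw [h1, h2, chi3_two, map_one, mul_one] at h3
  have h4 : IsUnit (n : ZMod (3 * r)) := by
    by_contra hcon
    rw [MulChar.map_nonunit _ hcon] at h3
    norm_num at h3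
  rw [h, MulChar.one_apply h4] at h3
  norm_num at h3

/-- The parameter: `1` for the modulus `r`, `e(1/3)` for the modulus `3 r`. -/
def ztv (b : Bool) : ℂ := if b then om else 1

theorem ztv_norm (b : Bool) : ‖ztv b‖ = 1 := by
  cases b
  · simp [ztv]
  · simp [ztv, om_norm]

theorem Van_ne (b : Bool) (hr2 : r ≠ 2) (x : ZMod r) : 1 + ztv b * ZMod.stdAddChar x ≠ 0 := by
  intro h
  cases b
  · simp only [ztv, Bool.false_eq_true, if_false, one_mul] at h
    exact Van_pow hr2 x (by linear_combination h)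
  · simp only [ztv, if_true] at h
    have h1 : om * ZMod.stdAddChar x = -1 := by linear_combination h
    have h2 : (ZMod.stdAddChar (3 * x) : ℂ) = -1 := by
      have h3 : (3 : ZMod r) * x = (3 : ℕ) • x := by
        rw [nsmul_eq_mul]
        push_cast
        rfl
      rw [h3, AddChar.map_nsmul_eq_pow]
      have h4 : (om * ZMod.stdAddChar x) ^ 3 = (-1) ^ 3 := by rw [h1]
      rw [mul_pow, om_pow, one_mul] at h4
      rw [h4]
      norm_num
    exact Van_pow hr2 (3 * x) h2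

/-- Nonvanishing of the character sum of `log |1 + zt e(x/r)|`. -/
theorem Van_ne_zero (b : Bool) (hr2 : r ≠ 2) (hr3 : r ≠ 3) {χ : DirichletCharacter ℂ r} (hχ : χ ≠ 1)
    (hpar : χ (-1) = if b then -1 else 1) (h2 : χ 2 ≠ if b then -1 else 1) :
    ∑ x : ZMod r, χ⁻¹ x * ((Real.log ‖1 + ztv b * ZMod.stdAddChar x‖ : ℝ) : ℂ) ≠ 0 := by
  have hχ' : χ⁻¹ ≠ 1 := inv_ne_one.2 hχ
  have hr : r.Prime := Fact.out
  cases b
  · simp only [Bool.false_eq_true, if_false] at hpar h2
    have h3 := NV_main (χ := χ) (Van_prim hχ') (ztv_norm false) (fun x _ => Van_ne false hr2 x)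
      (θ := χ) hχ (κ := 1) (fun n => by
        simp only [ztv, Bool.false_eq_true, if_false, one_pow, map_one, hpar]
        ring)
    rw [h3, one_mul]
    refine mul_ne_zero (Van_gauss hχ') (mul_ne_zero ?_ (LFunction_apply_one_ne_zero hχ))
    intro h
    exact h2 (by linear_combination -h)
  · simp only [if_true] at hpar h2
    have : NeZero (3 * r) := ⟨by have := hr.pos; omega⟩
    have h3 := NV_main (χ := χ) (Van_prim hχ') (ztv_norm true) (fun x _ => Van_ne true hr2 x)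
      (θ := th3 χ) (th3_ne χ hr3) (κ := Complex.I * (Real.sqrt 3 / 2 : ℝ)) (fun n => by
        have h4 := om_im n
        rw [th3_apply]
        simp only [ztv, if_true, hpar]
        have h5 : (om ^ n + -1 * (starRingEnd ℂ) (om ^ n)) / 2 =
          (om ^ n - (starRingEnd ℂ) (om ^ n)) / 2 := by ring
        rw [h5, h4]
        ring)
    rw [h3]
    have h6 : Complex.I * ((Real.sqrt 3 / 2 : ℝ) : ℂ) ≠ 0 := by
      refine mul_ne_zero Complex.I_ne_zero ?_
      have : (Real.sqrt 3 / 2 : ℝ) ≠ 0 := by positivity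
      exact_mod_cast this
    refine mul_ne_zero (mul_ne_zero h6 (Van_gauss hχ'))
      (mul_ne_zero ?_ (LFunction_apply_one_ne_zero (th3_ne χ hr3)))
    intro h
    have h7 := th3_apply χ 2
    have h8 : ((2 : ℕ) : ZMod 3) = 2 := rfl
    have h9 : ((2 : ℕ) : ZMod r) = 2 := by push_cast; rfl
    have h10 : ((2 : ℕ) : ZMod (3 * r)) = 2 := by push_cast; rfl
    rw [h8, h9, h10, chi3_two] at h7
    rw [h7] at h
    exact h2 (by linear_combination h)

/-- Vanishing at characters. -/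
theorem Van_char (b : Bool) (hr2 : r ≠ 2) (hr3 : r ≠ 3) {ι : Type*} (s : Finset ι) (f : ι → ℤ)
    (h : ι → ZMod r) (hh : ∀ i ∈ s, h i ≠ 0)
    (hX : ∀ y : ZMod r, y ≠ 0 →
      ∑ i ∈ s, (f i : ℝ) * Real.log ‖1 + ztv b * ZMod.stdAddChar (y * h i)‖ = 0)
    {χ : DirichletCharacter ℂ r} (hχ : χ ≠ 1)
    (hpar : χ (-1) = if b then -1 else 1) (h2 : χ 2 ≠ if b then -1 else 1) :
    ∑ i ∈ s, (f i : ℂ) * χ (h i) = 0 := by
  have hne := Van_ne_zero b hr2 hr3 hχ hpar h2
  set S := ∑ x : ZMod r, χ⁻¹ x * ((Real.log ‖1 + ztv b * ZMod.stdAddChar x‖ : ℝ) : ℂ) with hS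
  have h3 : ∀ i ∈ s, ∑ y : ZMod r, χ⁻¹ y *
      ((Real.log ‖1 + ztv b * ZMod.stdAddChar (y * h i)‖ : ℝ) : ℂ) = χ (h i) * S := by
    intro i hi
    have hi0 := hh i hi
    rw [hS, Finset.mul_sum]
    refine Fintype.sum_equiv (Equiv.mulRight₀ (h i) hi0) _ _ fun y => ?_
    rw [Equiv.mulRight₀_apply, map_mul χ⁻¹, ← mul_assoc]
    congr 1
    have h4 : χ (h i) * χ⁻¹ (h i) = 1 := by
      rw [← MulChar.mul_apply, mul_inv_cancel, MulChar.one_apply (isUnit_iff_ne_zero.2 hi0)]
    calc χ⁻¹ y = χ⁻¹ y * (χ (h i) * χ⁻¹ (h i)) := by rw [h4, mul_one]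
      _ = χ (h i) * (χ⁻¹ y * χ⁻¹ (h i)) := by ring
  have h4 : (∑ i ∈ s, (f i : ℂ) * χ (h i)) * S = 0 := by
    calc (∑ i ∈ s, (f i : ℂ) * χ (h i)) * S
        = ∑ i ∈ s, (f i : ℂ) * ∑ y : ZMod r, χ⁻¹ y *
          ((Real.log ‖1 + ztv b * ZMod.stdAddChar (y * h i)‖ : ℝ) : ℂ) := by
          rw [Finset.sum_mul]
          refine Finset.sum_congr rfl fun i hi => ?_
          rw [h3 i hi]
          ring
      _ = ∑ y : ZMod r, χ⁻¹ y * (((∑ i ∈ s, (f i : ℝ) *
          Real.log ‖1 + ztv b * ZMod.stdAddChar (y * h i)‖ : ℝ)) : ℂ) := by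
          simp_rw [Finset.mul_sum]
          rw [Finset.sum_comm]
          refine Finset.sum_congr rfl fun y _ => ?_
          push_cast
          rw [Finset.mul_sum]
          refine Finset.sum_congr rfl fun i _ => ?_
          ring
      _ = 0 := by
          refine Finset.sum_eq_zero fun y _ => ?_
          by_cases hy : y = 0
          · have : χ⁻¹ y = 0 := by
              rw [hy]
              exact MulChar.map_nonunit _ not_isUnit_zero
            rw [this, zero_mul]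
          · rw [hX y hy, Complex.ofReal_zero, mul_zero]
  exact (mul_eq_zero.1 h4).resolve_right hne

end Pool.Agent.KSV
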