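import Pool.Agent.W_420c7v_h4.Van

/-!
# Reduction modulo a prime over `r`: `∑ f_w h_w^k = 0` in `ZMod r`
-/

noncomputable section

open Finset Filter Topology DirichletCharacter Polynomial

namespace Pool.Agent.KSV

variable {r : ℕ} [Fact r.Prime]

/-- Two elements of order `m` in domains: the same exponents give `1`. -/
theorem VanR_one {R S : Type*} [CommRing R] [CommRing S] {m : ℕ} {a : R} {b : S}
    (ha : IsPrimitiveRoot a m) (hb : IsPrimitiveRoot b m) (n : ℕ) : a ^ n = 1 ↔ b ^ n = 1 := by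
  rw [ha.pow_eq_one_iff_dvd, hb.pow_eq_one_iff_dvd]

theorem VanR_neg {R S : Type*} [CommRing R] [IsDomain R] [CommRing S] {m : ℕ}
    {a : R} {b : S} (ha : IsPrimitiveRoot a m) (hb : IsPrimitiveRoot b m) (hS : (-1 : S) ≠ 1) (n : ℕ)
    (h : b ^ n = -1) : a ^ n = -1 := by
  have h1 : a ^ (n * 2) = 1 := by
    rw [VanR_one ha hb, pow_mul, h]
    norm_num
  have h2 : a ^ n ≠ 1 := by
    rw [Ne, VanR_one ha hb, h]
    exact hS
  rw [pow_mul] at h1
  rcases sq_eq_one_iff.1 h1 with h3 | h3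
  · exact absurd h3 h2
  · exact h3

/-- `∑ f_w h_w^k = 0` in `ZMod r`, `k` even for the modulus `r`, odd for the modulus `3 r`. -/
theorem VanR_main (b : Bool) (hr2 : r ≠ 2) (hr3 : r ≠ 3) {ι : Type*} (s : Finset ι) (f : ι → ℤ)
    (h : ι → ZMod r) (hh : ∀ i ∈ s, h i ≠ 0)
    (hX : ∀ y : ZMod r, y ≠ 0 →
      ∑ i ∈ s, (f i : ℝ) * Real.log ‖1 + ztv b * ZMod.stdAddChar (y * h i)‖ = 0)
    {k : ℕ} (hk : if b then Odd k else Even k) (h2 : (2 : ZMod r) ^ k ≠ if b then -1 else 1) :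
    ∑ i ∈ s, (f i : ZMod r) * h i ^ k = 0 := by
  have hr : r.Prime := Fact.out
  have hr5 : 5 ≤ r := by
    by_contra hcon
    have h3 := hr.two_le
    have : r = 4 := by omega
    rw [this] at hr
    norm_num at hr
  set m := r - 1 with hm
  have hm0 : m ≠ 0 := by omega
  obtain ⟨g, hg⟩ := IsCyclic.exists_generator (α := (ZMod r)ˣ)
  have hcard : Fintype.card (ZMod r)ˣ = m := by rw [ZMod.card_units]
  have hord : orderOf g = m := by
    rw [orderOf_eq_card_of_forall_mem_zpowers hg, Nat.card_eq_fintype_card, hcard]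
  have hgP : IsPrimitiveRoot ((g : (ZMod r)ˣ) : ZMod r) m := by
    rw [← hord]
    exact (IsPrimitiveRoot.orderOf g).map_of_injective (f := Units.coeHom (ZMod r)) Units.val_injective
  set ξ : ℂ := Complex.exp (2 * Real.pi * Complex.I / m) with hξ
  have hξP : IsPrimitiveRoot ξ m := Complex.isPrimitiveRoot_exp m hm0
  -- the character
  have hξ0 : ξ ≠ 0 := Complex.exp_ne_zero _
  let μ : ℂˣ := (Units.mk0 ξ hξ0) ^ k
  have hμ : μ ∈ rootsOfUnity (Fintype.card (ZMod r)ˣ) ℂ := by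
    rw [hcard, mem_rootsOfUnity]
    apply Units.ext
    simp only [μ, Units.val_pow_eq_pow_val, Units.val_mk0, Units.val_one]
    rw [← pow_mul, mul_comm, pow_mul, hξP.pow_eq_one, one_pow]
  set χ : DirichletCharacter ℂ r := MulChar.ofRootOfUnity hμ hg with hχdef
  have hχg : χ ((g : (ZMod r)ˣ) : ZMod r) = ξ ^ k := by
    rw [hχdef, MulChar.ofRootOfUnity_spec]
    simp [μ]
  have hχpow : ∀ n : ℕ, χ (((g : (ZMod r)ˣ) : ZMod r) ^ n) = ξ ^ (k * n) := by
    intro n
    rw [map_pow, hχg, ← pow_mul]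
  have hind : ∀ u : ZMod r, u ≠ 0 → ∃ n : ℕ, ((g : (ZMod r)ˣ) : ZMod r) ^ n = u := by
    intro u hu
    have h3 : Units.mk0 u hu ∈ Subgroup.zpowers g := hg _
    rw [← mem_powers_iff_mem_zpowers] at h3
    obtain ⟨n, hn⟩ := h3
    refine ⟨n, ?_⟩
    have := congrArg Units.val hn
    simpa using this
  have hneg1 : (-1 : ZMod r) ≠ 1 := by
    have : Fact (2 < r) := ⟨by omega⟩
    exact ZMod.neg_one_ne_one
  have hneg1' : (-1 : ℂ) ≠ 1 := by norm_num
  -- parity
  have hpar0 : χ (-1) = (-1) ^ k := by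
    obtain ⟨j, hj⟩ := hind (-1) (neg_ne_zero.2 one_ne_zero)
    rw [← hj, hχpow, mul_comm, pow_mul, VanR_neg hξP hgP hneg1 j hj]
  have hpar : χ (-1) = if b then -1 else 1 := by
    rw [hpar0]
    cases b
    · simp only [Bool.false_eq_true, if_false] at hk ⊢
      exact hk.neg_one_pow
    · simp only [if_true] at hk ⊢
      exact hk.neg_one_pow
  have h20 : (2 : ZMod r) ≠ 0 := by
    intro h3
    have h4 : ((2 : ℕ) : ZMod r) = 0 := by exact_mod_cast h3
    rw [ZMod.natCast_eq_zero_iff] at h4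
    have := Nat.le_of_dvd (by norm_num) h4
    omega
  have hχ2 : χ 2 ≠ if b then -1 else 1 := by
    obtain ⟨j, hj⟩ := hind 2 h20
    intro h3
    apply h2
    rw [← hj, hχpow] at h3
    rw [← hj, ← pow_mul, mul_comm j k]
    cases b
    · simp only [Bool.false_eq_true, if_false] at h3 ⊢
      exact (VanR_one hξP hgP _).1 h3
    · simp only [if_true] at h3 ⊢
      exact VanR_neg hgP hξP hneg1' _ h3
  have hχ1 : χ ≠ 1 := by
    intro h3
    cases b
    · simp only [Bool.false_eq_true, if_false] at hχ2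
      exact hχ2 (by rw [h3, MulChar.one_apply (isUnit_iff_ne_zero.2 h20)])
    · simp only [if_true] at hpar
      rw [h3, MulChar.one_apply (isUnit_iff_ne_zero.2 (neg_ne_zero.2 one_ne_zero))] at hpar
      exact hneg1' hpar.symm
  have hsum := Van_char b hr2 hr3 s f h hh hX hχ1 hpar hχ2
  -- indices
  choose! ind hindex using hind
  let P : ℤ[X] := ∑ i ∈ s, C (f i) * X ^ (k * ind (h i))
  have hP : aeval ξ P = 0 := by
    simp only [P, map_sum, map_mul, aeval_C, map_pow, aeval_X]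
    rw [← hsum]
    refine Finset.sum_congr rfl fun i hi => ?_
    rw [← hχpow, hindex _ (hh i hi)]
    simp
  have hdvd : cyclotomic m ℤ ∣ P := by
    rw [cyclotomic_eq_minpoly hξP (Nat.pos_of_ne_zero hm0)]
    exact minpoly.isIntegrallyClosed_dvd (hξP.isIntegral (Nat.pos_of_ne_zero hm0)) hP
  obtain ⟨Q, hQ⟩ := hdvd
  have hroot : (cyclotomic m (ZMod r)).IsRoot ((g : (ZMod r)ˣ) : ZMod r) :=
    hgP.isRoot_cyclotomic (Nat.pos_of_ne_zero hm0)
  have heval : eval₂ (Int.castRingHom (ZMod r)) ((g : (ZMod r)ˣ) : ZMod r) P = 0 := by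
    rw [hQ, eval₂_mul]
    have h3 : eval₂ (Int.castRingHom (ZMod r)) ((g : (ZMod r)ˣ) : ZMod r) (cyclotomic m ℤ) = 0 := by
      rw [← eval_map, map_cyclotomic]
      exact hroot
    rw [h3, zero_mul]
  rw [← heval]
  simp only [P, eval₂_finsetSum, eval₂_mul, eval₂_C, eval₂_pow, eval₂_X]
  refine Finset.sum_congr rfl fun i hi => ?_
  rw [mul_comm k, pow_mul, hindex _ (hh i hi)]
  simp

end Pool.Agent.KSV
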